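import Pool.Agent.Helper44.GN.Defs

open Finset MeasureTheory Filter Topology Matrix
open scoped ENNReal ContDiff

namespace Pool.Agent.Helper44.GN

open Pool.Agent.Helper44.GF

open scoped MatrixOrder in
theorem rho_sq_root {m : ℕ} {M : Matrix (Fin m) (Fin m) ℝ} (hM : M.PosSemidef) :
    ∃ B : Matrix (Fin m) (Fin m) ℝ, M = Bᵀ * B := by
  obtain ⟨B, hB⟩ := CStarAlgebra.nonneg_iff_eq_star_mul_self.mp hM.nonneg
  refine ⟨B, ?_⟩
  rw [hB, Matrix.star_eq_conjTranspose, Matrix.conjTranspose_eq_transpose_of_trivial]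

/-- the determinant of a positive semidefinite matrix is bounded by the trace -/
theorem rho_det {m : ℕ} (M : Matrix (Fin m) (Fin m) ℝ) (hM : M.PosSemidef) :
    M.det ≤ Real.exp (M.trace - m) := by
  have hH := hM.isHermitian
  have h1 : M.det = ∏ i, hH.eigenvalues i := by
    have := hH.det_eq_prod_eigenvalues
    simpa using this
  have h2 : M.trace = ∑ i, hH.eigenvalues i := by
    have := hH.trace_eq_sum_eigenvalues
    simpa using this
  rw [h1, h2]
  calc ∏ i, hH.eigenvalues i ≤ ∏ i, Real.exp (hH.eigenvalues i - 1) := by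
        apply Finset.prod_le_prod
        · intro i _
          exact hM.eigenvalues_nonneg i
        · intro i _
          have := Real.add_one_le_exp (hH.eigenvalues i - 1)
          linarith
    _ = Real.exp (∑ i, hH.eigenvalues i - m) := by
        rw [← Real.exp_sum, Finset.sum_sub_distrib]
        simp

theorem rho_pd {n m : ℕ} (V : Matrix (Fin n) (Fin m) ℝ) (hV : Function.Injective V.mulVec)
    (y : Fin n → ℝ) (hy : y ∈ Og n) : (TT V V y).PosDef := by
  unfold TT
  have h1 : (Matrix.diagonal y).PosDef := Matrix.PosDef.diagonal hy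
  have h2 := h1.conjTranspose_mul_mul_same hV
  rwa [Matrix.conjTranspose_eq_transpose_of_trivial] at h2

theorem st_RHO (hPJP : ST_PJP) (hPJE : ST_PJE) : ST_RHO := by
  intro n m V W hV hW y hy
  have hS := rho_pd V hV y hy
  have hR := rho_pd W hW y hy
  have hqV : 0 < qf V y := (hPJP n m V hV y hy).1
  have hqW : 0 < qf W y := (hPJP n m W hW y hy).1
  obtain ⟨B, hB⟩ := rho_sq_root hS.inv.posSemidef
  have hT : (TT V W y)ᵀ = TT W V y := by
    unfold TT
    rw [Matrix.transpose_mul, Matrix.transpose_mul, Matrix.transpose_transpose,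
      Matrix.diagonal_transpose, Matrix.mul_assoc]
  have hM : (B * TT V W y * (TT W W y)⁻¹ * (B * TT V W y)ᵀ).PosSemidef := by
    have := hR.inv.posSemidef.mul_mul_conjTranspose_same (B * TT V W y)
    rwa [Matrix.conjTranspose_eq_transpose_of_trivial] at this
  have hdet : (B * TT V W y * (TT W W y)⁻¹ * (B * TT V W y)ᵀ).det =
      (TT V W y).det ^ 2 / (qf V y * qf W y) := by
    have h1 : B.det * B.det = (qf V y)⁻¹ := by
      have h2 := congrArg Matrix.det hB
      rw [Matrix.det_nonsing_inv, Matrix.det_mul, Matrix.det_transpose, Ring.inverse_eq_inv'] at h2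
      exact h2.symm
    rw [Matrix.det_mul, Matrix.det_mul, Matrix.det_mul, Matrix.det_transpose, Matrix.det_mul,
      Matrix.det_nonsing_inv, Ring.inverse_eq_inv']
    have h3 : (TT W W y).det = qf W y := rfl
    rw [h3]
    calc B.det * (TT V W y).det * (qf W y)⁻¹ * (B.det * (TT V W y).det) =
        (B.det * B.det) * (TT V W y).det ^ 2 * (qf W y)⁻¹ := by ring
      _ = _ := by
        rw [h1]
        field_simp
  have htr : (B * TT V W y * (TT W W y)⁻¹ * (B * TT V W y)ᵀ).trace =
      Matrix.trace (PJ V y * PJ W y) := by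
    rw [(hPJE n m V W y hy).2.2.1, Matrix.transpose_mul, hT, hB]
    have e : B * TT V W y * (TT W W y)⁻¹ * (TT W V y * Bᵀ) =
        (B * TT V W y * (TT W W y)⁻¹ * TT W V y) * Bᵀ := by
      simp only [Matrix.mul_assoc]
    rw [e, Matrix.trace_mul_comm]
    simp only [Matrix.mul_assoc]
  have h := rho_det _ hM
  rw [hdet, htr, div_le_iff₀ (mul_pos hqV hqW)] at h
  have hs : Matrix.trace (PJ V y * PJ W y) - m = -sg V W y := by
    unfold sg
    ring
  rw [hs] at h
  linarith

end Pool.Agent.Helper44.GN
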